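import Pool.Agent.Lib.MP_b4c8d9_an.Final

/-! The coefficient multipliers from the Nevanlinna class to itself are exactly the finite linear
combinations of rotations, up to sequences decaying faster than every `exp (-b √n)`. -/

open Pool.Agent.Lib.MP_b4c8d9_an in
theorem Pool.Agent.Results.MP_b4c8d9_an.Main.result (lam : ℕ → ℂ) :
    IsMult lam ↔
      ∃ (X : Finset ℂ) (c : ℂ → ℂ), (∀ x ∈ X, ‖x‖ = 1) ∧ ∀ b : ℝ, 0 < b → ∃ C : ℝ, ∀ n : ℕ,
        ‖lam n - ∑ x ∈ X, c x * x ^ n‖ ≤ C * Real.exp (-b * Real.sqrt n) :=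
  ⟨necessity, fun ⟨_, _, hX, h⟩ => sufficiency hX h⟩
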